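import Mathlib
import Pool.Agent.Lib.MP_89478c_gt.Defs
import Pool.Agent.Lib.MP_89478c_gt.Checkerboard
import Pool.Agent.Lib.MP_89478c_gt.Insertion

set_option autoImplicit false

namespace Pool.Agent.Results.MP_89478c_gt.WarpAtMostOne

open Pool.Agent.Lib.MP_89478c_gt GaussDiagram

/-- A potential: integer weights on the edges which change by `+1` along over-passages and by `-1`
along under-passages, and which take values in `{-1, 0, 1, 2}`. -/
def IsPotential (D : GaussDiagram) (d : D.Edge → ℤ) : Prop :=
  (∀ e, -1 ≤ d e ∧ d e ≤ 2) ∧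
    ∀ e, d (D.next e) = d e + if (D.next e).2 = true then 1 else -1

theorem weight_eq {D : GaussDiagram} {d : D.Edge → ℤ} (hd : IsPotential D d) (e : D.Edge)
    (i : ℕ) : D.weight e i = d ((D.next^[i]) e) - d e := by
  induction i with
  | zero => simp [weight]
  | succ i ih =>
    rw [weight, ih, Function.iterate_succ_apply', hd.2]
    ring

theorem warp_le_one {D : GaussDiagram} {d : D.Edge → ℤ} (hd : IsPotential D d) :
    D.warp ≤ 1 := by
  apply Real.sSup_le _ zero_le_one
  rintro r ⟨e, i, j, -, -, rfl⟩
  rw [weight_eq hd, weight_eq hd]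
  have h1 := (hd.1 ((D.next^[i]) e)).2
  have h2 := (hd.1 ((D.next^[j]) e)).1
  have h1' : (d ((D.next^[i]) e) : ℝ) ≤ 2 := by exact_mod_cast h1
  have h2' : (-1 : ℝ) ≤ (d ((D.next^[j]) e) : ℝ) := by exact_mod_cast h2
  push_cast
  linarith

/-- The invariant of the construction: `U` is the set of crossings which still violate the weight
rule; there the over-strand goes from `1` to `0` and the under-strand from `0` to `1`. -/
def Inv (D : GaussDiagram) (d : D.Edge → ℤ) (U : Finset D.X) : Prop :=
  (∀ e, -1 ≤ d e ∧ d e ≤ 2) ∧
    (∀ e, (D.next e).1 ∉ U → d (D.next e) = d e + if (D.next e).2 = true then 1 else -1) ∧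
    ∀ e, (D.next e).1 ∈ U → (if (D.next e).2 = true then d e = 1 ∧ d (D.next e) = 0
      else d e = 0 ∧ d (D.next e) = 1)

/-- The new weights. -/
def newWeight (D : GaussDiagram) (x₀ : D.X) (d : D.Edge → ℤ) : (D.ins x₀).Edge → ℤ
  | (Sum.inl x, b) => d (x, b)
  | (Sum.inr false, b) => if b = true then 1 else 0
  | (Sum.inr true, b) => if b = true then 2 else -1

theorem inv_step {D : GaussDiagram} {d : D.Edge → ℤ} {U : Finset D.X} (h : Inv D d U) {x₀ : D.X}
    (hx₀ : x₀ ∈ U) :
    Inv (D.ins x₀) (newWeight D x₀ d) ((U.erase x₀).map ⟨Sum.inl, Sum.inl_injective⟩) := by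
  obtain ⟨h1, h2, h3⟩ := h
  have hold : ∀ e : D.Edge, newWeight D x₀ d (oldE e) = d e := fun e => rfl
  have hmem : ∀ x : D.X, (old x : (D.ins x₀).X) ∈
      ((U.erase x₀).map ⟨Sum.inl, Sum.inl_injective⟩ : Finset (D.ins x₀).X) ↔
      x ≠ x₀ ∧ x ∈ U := by
    intro x
    constructor
    · intro hx
      obtain ⟨y, hy, hyx⟩ := Finset.mem_map.mp hx
      have : y = x := Sum.inl_injective hyx
      subst this
      exact Finset.mem_erase.mp hy
    · intro hx
      exact Finset.mem_map.mpr ⟨x, Finset.mem_erase.mpr hx, rfl⟩
  have hmemy : (yy : (D.ins x₀).X) ∉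
      ((U.erase x₀).map ⟨Sum.inl, Sum.inl_injective⟩ : Finset (D.ins x₀).X) := by
    intro hx
    obtain ⟨y, -, hyx⟩ := Finset.mem_map.mp hx
    cases hyx
  have hmemz : (zz : (D.ins x₀).X) ∉
      ((U.erase x₀).map ⟨Sum.inl, Sum.inl_injective⟩ : Finset (D.ins x₀).X) := by
    intro hx
    obtain ⟨y, -, hyx⟩ := Finset.mem_map.mp hx
    cases hyx
  have hy : ∀ b : Bool, newWeight D x₀ d (yy, b) = if b = true then 1 else 0 := fun b => rfl
  have hz : ∀ b : Bool, newWeight D x₀ d (zz, b) = if b = true then 2 else -1 := fun b => rfl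
  have hout : ∀ b : Bool, d (x₀, b) = if b = true then 0 else 1 := by
    intro b
    have := h3 (D.next.symm (x₀, b)) (by rw [Equiv.apply_symm_apply]; exact hx₀)
    rw [Equiv.apply_symm_apply] at this
    cases b
    · exact this.2
    · exact this.2
  refine ⟨?_, ?_, ?_⟩
  · rintro ⟨x, b⟩
    induction x using ins_cases with
    | h1 x => exact h1 (x, b)
    | h2 => rw [hy]; cases b <;> simp
    | h3 => rw [hz]; cases b <;> simp
  · rintro ⟨x, b⟩
    induction x using ins_cases with
    | h1 x =>
      intro hnot
      have h0 := next_old (x₀ := x₀) (x, b)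
      change (D.ins x₀).next (old x, b) = _ at h0
      have hw : newWeight D x₀ d (old x, b) = d (x, b) := rfl
      by_cases hx : (D.next (x, b)).1 = x₀
      · rw [if_pos hx] at h0
        rw [h0, hy, hw]
        have := h3 (x, b) (by rw [hx]; exact hx₀)
        cases hb : (D.next (x, b)).2
        · rw [hb] at this
          simp only [Bool.false_eq_true, if_false] at this
          simp [this.1]
        · rw [hb] at this
          simp only [if_true] at this
          simp [this.1]
      · rw [if_neg hx] at h0
        rw [h0] at hnot ⊢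
        rw [hold, hw]
        apply h2
        intro hU
        exact hnot ((hmem _).mpr ⟨hx, hU⟩)
    | h2 =>
      intro _
      rw [next_yy, hz, hy]
      cases b <;> simp
    | h3 =>
      intro _
      rw [next_zz, hz]
      have : newWeight D x₀ d (old x₀, !b) = d (x₀, !b) := rfl
      rw [this, hout]
      cases b <;> simp
  · rintro ⟨x, b⟩
    induction x using ins_cases with
    | h1 x =>
      intro hin
      have h0 := next_old (x₀ := x₀) (x, b)
      change (D.ins x₀).next (old x, b) = _ at h0
      have hw : newWeight D x₀ d (old x, b) = d (x, b) := rfl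
      by_cases hx : (D.next (x, b)).1 = x₀
      · rw [if_pos hx] at h0
        rw [h0] at hin
        exact absurd hin hmemy
      · rw [if_neg hx] at h0
        rw [h0] at hin ⊢
        rw [hold, hw]
        exact h3 (x, b) ((hmem _).mp hin).2
    | h2 =>
      intro hin
      rw [next_yy] at hin
      exact absurd hin hmemz
    | h3 =>
      intro hin
      rw [next_zz] at hin
      exact absurd rfl ((hmem _).mp hin).1

theorem exists_potential (n : ℕ) : ∀ (D : LinkDiagram) (d : D.Edge → ℤ) (U : Finset D.X),
    U.card = n → Inv D.toGaussDiagram d U →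
    ∃ D' : LinkDiagram, Relation.ReflTransGen ReidemeisterII D D' ∧
      ∃ d' : D'.Edge → ℤ, IsPotential D'.toGaussDiagram d' := by
  induction n with
  | zero =>
    intro D d U hU h
    have : U = ∅ := Finset.card_eq_zero.mp hU
    subst this
    exact ⟨D, Relation.ReflTransGen.refl, d, h.1, fun e => h.2.1 e (by simp)⟩
  | succ n ih =>
    intro D d U hU h
    obtain ⟨x₀, hx₀⟩ : U.Nonempty := Finset.card_pos.mp (by omega)
    obtain ⟨D', hD', hd'⟩ := ih (D.ins x₀) (newWeight D.toGaussDiagram x₀ d)
      ((U.erase x₀).map ⟨Sum.inl, Sum.inl_injective⟩)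
      (by rw [Finset.card_map, Finset.card_erase_of_mem hx₀, hU]; rfl) (inv_step h hx₀)
    exact ⟨D', Relation.ReflTransGen.head (reidemeisterII_ins D x₀) hD', hd'⟩

/-- **The warping span of every link is at most one.** Every oriented link diagram `D` can be
transformed, by finitely many Reidemeister moves of type II, into a diagram `D'` (of the same link)
with `warp(D') ≤ 1`. -/
theorem result (D : LinkDiagram) :
    ∃ D' : LinkDiagram, Relation.ReflTransGen ReidemeisterII D D' ∧ D'.warp ≤ 1 := by
  obtain ⟨χ, hχ1, hχ2⟩ := D.toGaussDiagram.exists_checkerboard D.planar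
  -- the weight of an edge is the colour of its left-hand face
  let d : D.Edge → ℤ := fun e => if χ e = 0 then 0 else 1
  let U : Finset D.X := Finset.univ.filter fun x => χ (x, true) = 0
  have aux0 : ∀ a b : ZMod 2, a + b = 1 → a = 0 → b ≠ 0 := by decide
  have aux1 : ∀ a b : ZMod 2, a + b = 1 → a ≠ 0 → b = 0 := by decide
  have hinv : Inv D.toGaussDiagram d U := by
    refine ⟨?_, ?_, ?_⟩
    · intro e
      simp only [d]
      split_ifs <;> simp
    · intro e he
      have hne : χ ((D.next e).1, true) ≠ 0 := by
        intro h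
        exact he (Finset.mem_filter.mpr ⟨Finset.mem_univ _, h⟩)
      have h0 : χ ((D.next e).1, false) = 0 := aux1 _ _ (hχ1 _) hne
      have hs := hχ2 e
      simp only [d]
      generalize D.next e = q at *
      obtain ⟨y, b⟩ := q
      cases b
      · have he0 : χ e ≠ 0 := by
          intro h
          exact aux0 _ _ hs h h0
        rw [if_pos h0, if_neg he0]
        simp
      · have he0 : χ e = 0 := by
          by_contra h
          exact hne (aux1 _ _ hs h)
        rw [if_neg hne, if_pos he0]
        simp
    · intro e he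
      have h0 : χ ((D.next e).1, true) = 0 := (Finset.mem_filter.mp he).2
      have hne : χ ((D.next e).1, false) ≠ 0 := aux0 _ _ (hχ1 _) h0
      have hs := hχ2 e
      simp only [d]
      generalize D.next e = q at *
      obtain ⟨y, b⟩ := q
      cases b
      · have he0 : χ e = 0 := by
          by_contra h
          exact hne (aux1 _ _ hs h)
        simp [he0, hne]
      · have he0 : χ e ≠ 0 := by
          intro h
          exact aux0 _ _ hs h h0
        simp [he0, h0]
  obtain ⟨D', hD', d', hd'⟩ := exists_potential U.card D d U rfl hinv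
  exact ⟨D', hD', warp_le_one hd'⟩

end Pool.Agent.Results.MP_89478c_gt.WarpAtMostOne
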